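import Pool.Agent.W682.TW.Stm

/-!
Project TW (helper682), part UPA: assembly of the upper bound.
-/

set_option autoImplicit false

open scoped BigOperators
open MeasureTheory

namespace Pool.Agent.W977.TW.Upa

open Pool.Agent.W682.TW

theorem cont_entry {m : ℕ} (i : Fin 2) (j : Fin m) : Continuous (fun F : Mt m => F i j) :=
  (continuous_apply j).comp (continuous_apply i)

theorem cont_Gc {n m : ℕ} (e : Ix n ≃ Fin m) (ι : Ix n) : Continuous (fun F : Mt m => Gc e F ι) := by
  unfold Gc ip col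
  exact (((continuous_const.mul (cont_entry _ _)).add
    (continuous_const.mul (cont_entry _ _))).div_const _)

theorem cont_Oc {n m : ℕ} (e : Ix n ≃ Fin m) (ι : Ix n) : Continuous (fun F : Mt m => Oc e F ι) := by
  unfold Oc dt col
  exact (((continuous_const.mul (cont_entry _ _)).sub
    (continuous_const.mul (cont_entry _ _))).div_const _)

theorem cont_st {n m : ℕ} (e : Ix n ≃ Fin m) : Continuous (fun F : Mt m => st e F) := by
  unfold st
  refine Continuous.prodMk ?_ (Continuous.prodMk ?_ ?_)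
  · exact (continuous_finsetSum _ (fun z _ => cont_Gc e _)).add
      (continuous_finsetSum _ (fun z _ => cont_Gc e _))
  · exact continuous_pi (fun i => cont_Gc e _)
  · exact continuous_pi (fun i => cont_Gc e _)

theorem cont_SO {n m : ℕ} (e : Ix n ≃ Fin m) : Continuous (fun F : Mt m => SO e F) := by
  unfold SO
  exact continuous_finsetSum _ (fun z _ => (cont_Oc e _).pow 2)

theorem cont_NN {n m : ℕ} (e : Ix n ≃ Fin m) (c : ℝ) : Continuous (fun F : Mt m => NN e c F) := by
  unfold NN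
  refine continuous_const.mul (continuous_finsetSum _ (fun z _ => continuous_finsetSum _
    (fun w _ => ?_)))
  unfold dt col
  exact ((((cont_entry _ _).mul (cont_entry _ _)).sub
    ((cont_entry _ _).mul (cont_entry _ _))).div_const _)

theorem cont_sq {n : ℕ} : Continuous (fun v : Fin n → ℝ => Pool.Agent.W682.TW.sq v) := by
  unfold Pool.Agent.W682.TW.sq
  exact continuous_finsetSum _ (fun i _ => (continuous_apply i).pow 2)

theorem cont_pf (n : ℕ) (σ : ℕ → ℝ) :
    Continuous (fun v : (Fin n → ℝ) × (Fin n → ℝ) => pf n σ v.1 v.2) := by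
  unfold pf
  refine continuous_finsetSum _ (fun i _ => continuous_finsetSum _ (fun j _ => ?_))
  exact (continuous_const.mul ((continuous_apply i).comp continuous_fst)).mul
    ((continuous_apply j).comp continuous_snd)

theorem cont_wx (n : ℕ) (σ : ℕ → ℝ) (Λ χ : ℝ) : Continuous (fun x : St n => wx n σ Λ χ x) := by
  unfold wx
  refine (((continuous_const.mul ((continuous_fst.sub continuous_const).pow 2)).add
    (continuous_const.mul ((cont_pf n σ).comp continuous_snd))).add
    (continuous_const.mul (cont_sq.comp (continuous_fst.comp continuous_snd)))).add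
    (continuous_const.mul (cont_sq.comp (continuous_snd.comp continuous_snd)))

theorem cont_Wm {n m : ℕ} (e : Ix n ≃ Fin m) (σ : ℕ → ℝ) (Λ k c χ : ℝ) :
    Continuous (fun F : Mt m => Wm e σ Λ k c χ F) := by
  unfold Wm
  exact (((cont_wx n σ Λ χ).comp (cont_st e)).add (continuous_const.mul (cont_SO e))).add
    (cont_NN e c)

theorem cont_TK (K : ℕ) : Continuous (fun p : ℝ × ℝ => TK K p.1 p.2) := by
  unfold TK
  refine continuous_finsetSum _ (fun k _ => ?_)
  refine Continuous.div_const ?_ _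
  fun_prop

theorem cont_cosph (n : ℕ) (ι : Ix n) :
    Continuous (fun x : Fin 2 → ℝ => Real.cos (ph n ι x)) := by
  unfold ph ip
  fun_prop

/-- integral of the indicator -/
theorem int_chi {τ : ℝ} (h0 : 0 ≤ τ) (h1 : τ ≤ 1) :
    (∫ s in (0 : ℝ)..1, (if s < τ then (1 : ℝ) else 0)) = τ := by
  have h2 : (fun s : ℝ => if s < τ then (1 : ℝ) else 0) = (Set.Iio τ).indicator (fun _ => 1) := by
    funext s
    simp only [Set.indicator_apply, Set.mem_Iio]
  rw [h2, intervalIntegral.integral_of_le zero_le_one, setIntegral_indicator measurableSet_Iio]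
  have h3 : Set.Ioc (0 : ℝ) 1 ∩ Set.Iio τ = Set.Ioo 0 τ := by
    ext s
    simp only [Set.mem_inter_iff, Set.mem_Ioc, Set.mem_Iio, Set.mem_Ioo]
    constructor
    · rintro ⟨⟨a, _⟩, b⟩
      exact ⟨a, b⟩
    · rintro ⟨a, b⟩
      exact ⟨⟨a, (b.le.trans h1)⟩, b⟩
  rw [h3]
  simp [h0]

/-- a continuous function cut at a point is integrable -/
theorem ii_cut {g1 g0 : ℝ → ℝ} (c1 : Continuous g1) (c0 : Continuous g0) (τ : ℝ) :
    IntervalIntegrable (fun s => if s < τ then g1 s else g0 s) volume 0 1 := by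
  rw [intervalIntegrable_iff_integrableOn_Ioc_of_le zero_le_one]
  have h1 : IntegrableOn g1 (Set.Ioc 0 1) :=
    (c1.integrableOn_Icc).mono_set Set.Ioc_subset_Icc_self
  have h0 : IntegrableOn g0 (Set.Ioc 0 1) :=
    (c0.integrableOn_Icc).mono_set Set.Ioc_subset_Icc_self
  have h2 : (fun s => if s < τ then g1 s else g0 s) =
      fun s => (Set.Iio τ).indicator g1 s + (Set.Ici τ).indicator g0 s := by
    funext s
    by_cases h : s < τ
    · have h' : ¬ τ ≤ s := not_le.mpr h
      simp [h, h']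
    · have h' : τ ≤ s := not_lt.mp h
      simp [h, h']
  rw [h2]
  exact (h1.indicator measurableSet_Iio).add (h0.indicator measurableSet_Ici)

/-- the inner integral -/
theorem inner (Λ K' τ p q r c S : ℝ) (y : ℝ → ℝ) (hy : Continuous y) (hΛ : 0 ≤ Λ)
    (h0 : 0 ≤ τ) (h1 : τ ≤ 1)
    (hp : (∫ s in (0 : ℝ)..1, (τ + y s - (if s < τ then (1 : ℝ) else 0)) ^ 2) ≤ 1 / K')
    (hy0 : (∫ s in (0 : ℝ)..1, y s) = 0) (G : ℝ → ℝ) (hG : Continuous G)
    (hG0 : ∀ s, G s ≤ Λ * (τ + y s - 0) ^ 2 + 0 * p + q + c * (r - 2 * (1 / 2 + y s) * S))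
    (hG1 : ∀ s, G s ≤ Λ * (τ + y s - 1) ^ 2 + 1 * p + q + c * (r - 2 * (1 / 2 + y s) * S)) :
    (∫ s in (0 : ℝ)..1, G s) ≤ Λ * (1 / K') + (τ * p + q) + c * (r - S) := by
  have i1 : IntervalIntegrable (fun s => (τ + y s - (if s < τ then (1 : ℝ) else 0)) ^ 2)
      volume 0 1 := by
    have : (fun s => (τ + y s - (if s < τ then (1 : ℝ) else 0)) ^ 2) =
        fun s => if s < τ then (τ + y s - 1) ^ 2 else (τ + y s - 0) ^ 2 := by
      funext s
      split_ifs <;> rfl
    rw [this]
    exact ii_cut (by fun_prop) (by fun_prop) τ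
  have i2 : IntervalIntegrable (fun s => if s < τ then (1 : ℝ) else 0) volume 0 1 :=
    ii_cut continuous_const continuous_const τ
  have i3 : IntervalIntegrable y volume 0 1 := hy.intervalIntegrable _ _
  have i4 : IntervalIntegrable (fun _ : ℝ => q + c * (r - S)) volume 0 1 :=
    continuous_const.intervalIntegrable _ _
  have hle : ∀ s, G s ≤ Λ * (τ + y s - (if s < τ then (1 : ℝ) else 0)) ^ 2 +
      p * (if s < τ then (1 : ℝ) else 0) + (-(2 * c * S)) * y s + (q + c * (r - S)) := by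
    intro s
    split_ifs with h
    · have := hG1 s
      linarith
    · have := hG0 s
      linarith
  have i5 : IntervalIntegrable (fun s => Λ * (τ + y s - (if s < τ then (1 : ℝ) else 0)) ^ 2 +
      p * (if s < τ then (1 : ℝ) else 0) + (-(2 * c * S)) * y s + (q + c * (r - S))) volume 0 1 :=
    (((i1.const_mul Λ).add (i2.const_mul p)).add (i3.const_mul _)).add i4
  have hmono := intervalIntegral.integral_mono_on (μ := volume) zero_le_one
    (hG.intervalIntegrable 0 1) i5 (fun s _ => hle s)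
  refine hmono.trans ?_
  rw [intervalIntegral.integral_add (((i1.const_mul Λ).add (i2.const_mul p)).add (i3.const_mul _)) i4,
    intervalIntegral.integral_add ((i1.const_mul Λ).add (i2.const_mul p)) (i3.const_mul _),
    intervalIntegral.integral_add (i1.const_mul Λ) (i2.const_mul p),
    intervalIntegral.integral_const_mul, intervalIntegral.integral_const_mul,
    intervalIntegral.integral_const_mul, int_chi h0 h1, hy0]
  have h5 := mul_le_mul_of_nonneg_left hp hΛ
  simp only [intervalIntegral.integral_const, sub_zero, smul_eq_mul, one_mul]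
  linarith

theorem vol_cube : volume cube = 1 := by
  unfold cube
  rw [volume_pi_pi]
  simp

theorem compact_cube : IsCompact cube := isCompact_univ_pi (fun _ => isCompact_Icc)

theorem main (hTS : S_TS) (hPRF : S_PRF) (hPK : S_PK) (hVAL : S_VAL) (hTHB : S_THB)
    (hFLD : S_FLD) : S_UPA := by
  intro n m e σ Λ k c δ hn hσ hsup hΛ hδ
  have hth := hTHB n σ hn hσ hsup
  have hnR : (n : ℝ) = 16384 := by rw [hn]; norm_num
  generalize hα : (1 / (32 * (n : ℝ))) = α at hth
  obtain ⟨hadm, hper, hsm, hW⟩ := hFLD n m e σ α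
  obtain ⟨hV1, hV2⟩ := hVAL n σ α hn hσ
  clear hn
  obtain ⟨K, hK1, hK2⟩ : ∃ K : ℕ, 1 ≤ K ∧ Λ * (1 / (K : ℝ)) ≤ δ / 2 := by
    obtain ⟨K, hK⟩ := exists_nat_ge (2 * Λ / δ)
    refine ⟨K + 1, Nat.le_add_left 1 K, ?_⟩
    have h1 : (0:ℝ) < ((K + 1 : ℕ) : ℝ) := by positivity
    rw [mul_one_div, div_le_iff₀ h1]
    rw [div_le_iff₀ hδ] at hK
    push_cast
    nlinarith
  obtain ⟨hPs, hPp, hPd, hPi⟩ := hPK K
  have cth : Continuous (thx n σ α) := hsm.continuous
  have k1 : ContDiff ℝ ((⊤ : ℕ∞) : WithTop ℕ∞)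
      (Function.uncurry (fun (x : Fin 2 → ℝ) (s : ℝ) => PK K (thx n σ α x) s)) := by
    have h1 : (Function.uncurry (fun (x : Fin 2 → ℝ) (s : ℝ) => PK K (thx n σ α x) s)) =
        (Function.uncurry (PK K)) ∘ (fun p : (Fin 2 → ℝ) × ℝ => (thx n σ α p.1, p.2)) := rfl
    rw [h1]
    have h2 : ContDiff ℝ ((⊤ : ℕ∞) : WithTop ℕ∞)
        (fun p : (Fin 2 → ℝ) × ℝ => ((thx n σ α p.1, p.2) : ℝ × ℝ)) :=
      (hsm.comp contDiff_fst).prodMk contDiff_snd
    exact hPs.comp h2
  have k2 : ∀ (x : Fin 2 → ℝ) (z : Fin 2 → ℤ) (s : ℝ),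
      (fun (x : Fin 2 → ℝ) (s : ℝ) => PK K (thx n σ α x) s) (x + fun i => (z i : ℝ)) s =
      (fun (x : Fin 2 → ℝ) (s : ℝ) => PK K (thx n σ α x) s) x s := by
    intro x z s
    show PK K (thx n σ α (x + fun i => (z i : ℝ))) s = PK K (thx n σ α x) s
    rw [hper x z]
  have k3 : ∀ (x : Fin 2 → ℝ) (s : ℝ),
      (fun (x : Fin 2 → ℝ) (s : ℝ) => PK K (thx n σ α x) s) x (s + 1) =
      (fun (x : Fin 2 → ℝ) (s : ℝ) => PK K (thx n σ α x) s) x s := by
    intro x s
    exact hPp (thx n σ α x) s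
  have k4 : Continuous (fun F : Mt m => min (Wm e σ Λ k c 0 F) (Wm e σ Λ k c 1 F)) :=
    (cont_Wm e σ Λ k c 0).min (cont_Wm e σ Λ k c 1)
  obtain ⟨u, hu, hint⟩ := hTS m (fun F => min (Wm e σ Λ k c 0 F) (Wm e σ Λ k c 1 F)) (F0 e)
    (slow e σ α) (e (.inl (.inl ()))) (fun x s => PK K (thx n σ α x) s)
    k4 hadm k1 k2 k3 (δ / 2) (by positivity)
  refine ⟨u, hu, hint.trans ?_⟩
  -- abbreviations
  obtain ⟨P, hP⟩ : ∃ P : (Fin 2 → ℝ) → ℝ, ∀ x, P x = pf n σ (Af n α x) (Bf n α x) :=
    ⟨_, fun _ => rfl⟩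
  obtain ⟨A, hA⟩ : ∃ A : (Fin 2 → ℝ) → ℝ, ∀ x, A x = Pool.Agent.W682.TW.sq (Af n α x) :=
    ⟨_, fun _ => rfl⟩
  obtain ⟨B, hB⟩ : ∃ B : (Fin 2 → ℝ) → ℝ, ∀ x, B x = Pool.Agent.W682.TW.sq (Bf n α x) :=
    ⟨_, fun _ => rfl⟩
  obtain ⟨C2, hC2⟩ : ∃ C2 : (Fin 2 → ℝ) → ℝ, ∀ x, C2 x = ∑ s : Fin (2 * n),
      (amp n σ α (.inl (.inr s)) * Real.cos (ph n (.inl (.inr s)) x)) ^ 2 :=
    ⟨_, fun _ => rfl⟩
  have cAf : Continuous (fun x => Af n α x) := by
    unfold Af
    exact continuous_pi (fun i => continuous_const.mul (cont_cosph n _))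
  have cBf : Continuous (fun x => Bf n α x) := by
    unfold Bf
    exact continuous_pi (fun i => continuous_const.mul (cont_cosph n _))
  have cP : Continuous P := by
    rw [show P = fun x => pf n σ (Af n α x) (Bf n α x) from funext hP]
    have h3 := (cont_pf n σ).comp (cAf.prodMk cBf)
    exact h3
  have cA : Continuous A := by
    rw [show A = fun x => Pool.Agent.W682.TW.sq (Af n α x) from funext hA]
    exact cont_sq.comp cAf
  have cB : Continuous B := by
    rw [show B = fun x => Pool.Agent.W682.TW.sq (Bf n α x) from funext hB]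
    exact cont_sq.comp cBf
  have cC2 : Continuous C2 := by
    rw [show C2 = _ from funext hC2]
    exact continuous_finsetSum _ (fun s _ => (continuous_const.mul (cont_cosph n _)).pow 2)
  have hW' : ∀ (x : Fin 2 → ℝ) (y χ : ℝ),
      Wm e σ Λ k c χ (F0 e + gr (slow e σ α) x + Matrix.of (fun (i : Fin 2) (j : Fin m) =>
        if j = e (.inl (.inl ())) ∧ i = 1 then y else 0)) =
      Λ * (thx n σ α x + y - χ) ^ 2 + χ * P x + (6 * A x + 6 * B x)
        + c * ((C2 x + A x - (thx n σ α x - 1 / 2) ^ 2)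
          - 2 * (1 / 2 + y) * (thx n σ α x - 1 / 2)) := by
    intro x y χ
    rw [hW x y Λ k c χ, ← hP x, ← hA x, ← hB x, ← hC2 x]
    ring
  obtain ⟨T, hT⟩ : ∃ T : (Fin 2 → ℝ) → ℝ → ℝ, ∀ x s, T x s = TK K (thx n σ α x) s :=
    ⟨_, fun _ _ => rfl⟩
  have cT : Continuous (fun p : (Fin 2 → ℝ) × ℝ => T p.1 p.2) := by
    rw [show (fun p : (Fin 2 → ℝ) × ℝ => T p.1 p.2) = fun p => TK K (thx n σ α p.1) p.2 from
      funext fun p => hT p.1 p.2]
    have h2 : Continuous (fun p : (Fin 2 → ℝ) × ℝ => ((thx n σ α p.1, p.2) : ℝ × ℝ)) :=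
      (cth.comp continuous_fst).prodMk continuous_snd
    have h3 := (cont_TK K).comp h2
    exact h3
  obtain ⟨G, hG⟩ : ∃ G : (Fin 2 → ℝ) → ℝ → ℝ, ∀ x s, G x s = min
    (Λ * (thx n σ α x + T x s - 0) ^ 2 + 0 * P x + (6 * A x + 6 * B x)
        + c * ((C2 x + A x - (thx n σ α x - 1 / 2) ^ 2)
          - 2 * (1 / 2 + T x s) * (thx n σ α x - 1 / 2)))
    (Λ * (thx n σ α x + T x s - 1) ^ 2 + 1 * P x + (6 * A x + 6 * B x)
        + c * ((C2 x + A x - (thx n σ α x - 1 / 2) ^ 2)
          - 2 * (1 / 2 + T x s) * (thx n σ α x - 1 / 2))) := ⟨_, fun _ _ => rfl⟩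
  have cG : Continuous (fun p : (Fin 2 → ℝ) × ℝ => G p.1 p.2) := by
    have c1 : Continuous (fun p : (Fin 2 → ℝ) × ℝ => thx n σ α p.1) := cth.comp continuous_fst
    have c2 : Continuous (fun p : (Fin 2 → ℝ) × ℝ => P p.1) := cP.comp continuous_fst
    have c3 : Continuous (fun p : (Fin 2 → ℝ) × ℝ => A p.1) := cA.comp continuous_fst
    have c4 : Continuous (fun p : (Fin 2 → ℝ) × ℝ => B p.1) := cB.comp continuous_fst
    have c5 : Continuous (fun p : (Fin 2 → ℝ) × ℝ => C2 p.1) := cC2.comp continuous_fst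
    rw [show (fun p : (Fin 2 → ℝ) × ℝ => G p.1 p.2) = fun p => _ from
      funext fun p => hG p.1 p.2]
    refine Continuous.min ?_ ?_
    · exact (((continuous_const.mul (((c1.add cT).sub continuous_const).pow 2)).add
        (continuous_const.mul c2)).add ((continuous_const.mul c3).add (continuous_const.mul c4))).add
        (continuous_const.mul (((c5.add c3).sub ((c1.sub continuous_const).pow 2)).sub
          ((continuous_const.mul (continuous_const.add cT)).mul (c1.sub continuous_const))))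
    · exact (((continuous_const.mul (((c1.add cT).sub continuous_const).pow 2)).add
        (continuous_const.mul c2)).add ((continuous_const.mul c3).add (continuous_const.mul c4))).add
        (continuous_const.mul (((c5.add c3).sub ((c1.sub continuous_const).pow 2)).sub
          ((continuous_const.mul (continuous_const.add cT)).mul (c1.sub continuous_const))))
  have hconv : (∫ x in cube, ∫ s in (0 : ℝ)..1,
      (fun F => min (Wm e σ Λ k c 0 F) (Wm e σ Λ k c 1 F))
        (F0 e + gr (slow e σ α) x + Matrix.of (fun (i : Fin 2) (j : Fin m) =>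
          if j = e (.inl (.inl ())) ∧ i = 1 then
            deriv ((fun x s => PK K (thx n σ α x) s) x) s else 0))) =
      ∫ x in cube, ∫ s in (0 : ℝ)..1, G x s := by
    refine congrArg (fun f : (Fin 2 → ℝ) → ℝ => ∫ x in cube, f x) ?_
    funext x
    refine congrArg (fun f : ℝ → ℝ => ∫ s in (0 : ℝ)..1, f s) ?_
    funext s
    have hd : deriv ((fun (x : Fin 2 → ℝ) (s : ℝ) => PK K (thx n σ α x) s) x) s = T x s := by
      rw [hT]
      exact hPd (thx n σ α x) s
    rw [hd]
    show min (Wm e σ Λ k c 0 _) (Wm e σ Λ k c 1 _) = _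
    rw [hW', hW', hG]
  rw [hconv]
  have hin : ∀ x, (∫ s in (0 : ℝ)..1, G x s) ≤ Λ * (1 / (K : ℝ)) +
      (thx n σ α x * P x + (6 * A x + 6 * B x)) +
      c * ((C2 x + A x - (thx n σ α x - 1 / 2) ^ 2) - (thx n σ α x - 1 / 2)) := by
    intro x
    refine inner Λ K (thx n σ α x) (P x) (6 * A x + 6 * B x) _ c (thx n σ α x - 1 / 2) (T x) ?_ hΛ
      (hth x).1 (hth x).2 ?_ ?_ (G x) ?_ ?_ ?_
    · exact cT.comp (Continuous.prodMk_right x)
    · rw [show T x = TK K (thx n σ α x) from funext (hT x)]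
      exact hPRF K _ hK1 (hth x).1 (hth x).2
    · rw [show T x = TK K (thx n σ α x) from funext (hT x)]
      exact hPi _
    · exact cG.comp (Continuous.prodMk_right x)
    · intro s
      rw [hG]
      exact min_le_left _ _
    · intro s
      rw [hG]
      exact min_le_right _ _
  have cL : Continuous (fun x => ∫ s in (0 : ℝ)..1, G x s) :=
    intervalIntegral.continuous_parametric_intervalIntegral_of_continuous' cG 0 1
  have c6 : Continuous (fun x => thx n σ α x * P x + (6 * A x + 6 * B x)) :=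
    (cth.mul cP).add ((continuous_const.mul cA).add (continuous_const.mul cB))
  have c7 : Continuous (fun x => (C2 x + A x - (thx n σ α x - 1 / 2) ^ 2) -
      (thx n σ α x - 1 / 2)) :=
    ((cC2.add cA).sub ((cth.sub continuous_const).pow 2)).sub (cth.sub continuous_const)
  have io : ∀ {f : (Fin 2 → ℝ) → ℝ}, Continuous f → IntegrableOn f cube := fun hf =>
    hf.continuousOn.integrableOn_compact compact_cube
  have d0 : Continuous (fun _ : Fin 2 → ℝ => Λ * (1 / (K : ℝ))) := continuous_const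
  have d1 : Continuous (fun x => Λ * (1 / (K : ℝ)) +
      (thx n σ α x * P x + (6 * A x + 6 * B x))) := d0.add c6
  have d2 : Continuous (fun x => c * ((C2 x + A x - (thx n σ α x - 1 / 2) ^ 2) -
      (thx n σ α x - 1 / 2))) := continuous_const.mul c7
  have d3 : Continuous (fun x => Λ * (1 / (K : ℝ)) +
      (thx n σ α x * P x + (6 * A x + 6 * B x)) + c * ((C2 x + A x - (thx n σ α x - 1 / 2) ^ 2) -
      (thx n σ α x - 1 / 2))) := d1.add d2
  have hout := setIntegral_mono (io cL) (io d3) hin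
  have hE1 : (∫ x in cube, (thx n σ α x * P x + (6 * A x + 6 * B x))) = -(n : ℝ) * α ^ 2 := by
    rw [← hV1]
    refine congrArg (fun f : (Fin 2 → ℝ) → ℝ => ∫ x in cube, f x) ?_
    funext x
    rw [← hP x, ← hA x, ← hB x]
    ring
  have hE : (∫ x in cube, (Λ * (1 / (K : ℝ)) + (thx n σ α x * P x + (6 * A x + 6 * B x)) +
      c * ((C2 x + A x - (thx n σ α x - 1 / 2) ^ 2) - (thx n σ α x - 1 / 2)))) =
      Λ * (1 / (K : ℝ)) + -(n : ℝ) * α ^ 2 + c * 0 := by
    have h8 : (∫ x in cube, ((C2 x + A x - (thx n σ α x - 1 / 2) ^ 2) -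
        (thx n σ α x - 1 / 2))) = 0 := by
      rw [← hV2]
      refine congrArg (fun f : (Fin 2 → ℝ) → ℝ => ∫ x in cube, f x) ?_
      funext x
      rw [← hA x, ← hC2 x]
    have h9 : (∫ _x in cube, Λ * (1 / (K : ℝ))) = Λ * (1 / (K : ℝ)) := by
      rw [setIntegral_const]
      unfold Measure.real
      rw [vol_cube]
      simp
    have h10 : (∫ x in cube, c * ((C2 x + A x - (thx n σ α x - 1 / 2) ^ 2) -
        (thx n σ α x - 1 / 2))) = c * 0 := by
      rw [← h8]
      exact integral_const_mul _ _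
    rw [integral_add (io d1) (io d2), integral_add (io d0) (io c6), hE1, h9, h10]
  rw [hE] at hout
  have hfin : -(n : ℝ) * α ^ 2 = -(1 / 2 ^ 24) := by
    rw [← hα, hnR]
    norm_num
  rw [hfin] at hout
  linarith

end Pool.Agent.W977.TW.Upa
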